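import Mathlib
import Pool.Agent.Q288.VL.RMany

set_option autoImplicit false

/-!
# The primes of the form `8 d^2 + 1 = 64 b^2 + 9` and laws for real amplitudes

The numbers `8 d_m^2 + 1` of the Pell equation are the numbers `⌊2 β^m⌋ + 6`, `β = (3 + √8)^2`. In the
family `⌊x β^m⌋ + c` with a real amplitude `x` the sets of prime indices along lacunary sequences
have the law predicted by the heuristic argument, up to constants.
-/

namespace Pool.Agent.Results.MP_f53aaa_nt.AmplitudeLaws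

open Finset MeasureTheory

/-- the fixed base -/
noncomputable def β : ℝ := (3 + √8) ^ 2

/-- The set of the `k > N` for which `⌊x β^(n k)⌋ + c k` is prime. -/
noncomputable def further (n c : ℕ → ℕ) (N : ℕ) (x : ℝ) : Set ℕ :=
  {k | N < k ∧ (⌊x * β ^ n k⌋₊ + c k).Prime}

theorem pell (m : ℕ) : ∃ d b : ℕ, (d : ℝ) + b * √8 = (3 + √8) ^ m ∧
    (d : ℝ) - b * √8 = (3 - √8) ^ m ∧ d ^ 2 = 8 * b ^ 2 + 1 := by
  have h8 : √8 * √8 = 8 := Real.mul_self_sqrt (by norm_num)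
  induction m with
  | zero => exact ⟨1, 0, by simp, by simp, by norm_num⟩
  | succ m ih =>
    obtain ⟨d, b, h1, h2, h3⟩ := ih
    refine ⟨3 * d + 8 * b, d + 3 * b, ?_, ?_, ?_⟩
    · rw [pow_succ, ← h1]
      push_cast
      linear_combination (-(b : ℝ)) * h8
    · rw [pow_succ, ← h2]
      push_cast
      linear_combination (-(b : ℝ)) * h8
    · nlinarith

theorem numbers (m : ℕ) (hm : 1 ≤ m) : ∃ d b : ℕ, (d : ℝ) + b * √8 = (3 + √8) ^ m ∧
    ⌊2 * β ^ m⌋₊ + 6 = 8 * d ^ 2 + 1 ∧ 8 * d ^ 2 + 1 = 64 * b ^ 2 + 9 := by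
  obtain ⟨d, b, h1, h2, h3⟩ := pell m
  have h8 : √8 * √8 = 8 := Real.mul_self_sqrt (by norm_num)
  have h8a : (2.8 : ℝ) < √8 := by
    rw [Real.lt_sqrt (by norm_num)]
    norm_num
  have h8b : √8 < 3 := by
    rw [Real.sqrt_lt' (by norm_num)]
    norm_num
  refine ⟨d, b, h1, ?_, by rw [h3]; ring⟩
  have e1 : β ^ m = ((d : ℝ) + b * √8) ^ 2 := by
    rw [h1]
    unfold β
    rw [← pow_mul, ← pow_mul, mul_comm]
  have h3r : (d : ℝ) ^ 2 = 8 * (b : ℝ) ^ 2 + 1 := by exact_mod_cast h3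
  set θ : ℝ := (d : ℝ) - b * √8 with hθ
  have hθ0 : 0 < θ := by
    rw [h2]
    exact pow_pos (by linarith) _
  have hθ1 : θ ≤ 1 / 5 := by
    rw [h2]
    calc (3 - √8) ^ m ≤ (3 - √8) ^ 1 :=
          pow_le_pow_of_le_one (by linarith) (by linarith) hm
      _ ≤ 1 / 5 := by rw [pow_one]; linarith
  have e2 : ((d : ℝ) + b * √8) ^ 2 + θ ^ 2 = 2 * (2 * (d : ℝ) ^ 2 - 1) := by
    rw [hθ]
    have : ((d : ℝ) + b * √8) ^ 2 + ((d : ℝ) - b * √8) ^ 2 =
        2 * (d : ℝ) ^ 2 + 2 * ((b : ℝ) ^ 2 * (√8 * √8)) := by ring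
    rw [this, h8]
    linarith
  have hθ2 : 0 < θ ^ 2 := by positivity
  have hθ3 : θ ^ 2 < 1 / 2 := by nlinarith
  have hd1 : 1 ≤ d := by
    rcases Nat.eq_zero_or_pos d with h | h
    · rw [h] at h3; omega
    · exact h
  have hd2 : 1 ≤ d ^ 2 := Nat.one_le_pow _ _ hd1
  have e3 : ⌊2 * β ^ m⌋₊ = 8 * d ^ 2 - 5 := by
    rw [Nat.floor_eq_iff (by rw [e1]; positivity), e1, Nat.cast_sub (by omega)]
    push_cast
    constructor <;> linarith
  rw [e3]
  omega

/-- The numbers of the problem are `8 d^2 + 1 = 64 b^2 + 9` with `d + b √8 = (3 + √8)^m`, `m ≥ 1`; they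
are equal to `⌊2 β^m⌋ + 6`. There are constants `0 < a ≤ A` and `C` such that for `0 < ε < 1`,
`0 < s < t` and `B` there is `K` such that for all sequences `n` with `C n_k ≤ n_(k+1)`, all `N` with
`n_N ≥ K` and all sequences `c` of natural numbers at most `B`: (1) for EVERY finite set `I` of indices
`> N` the measure of the `x` in `(s, t)` with `further n c N x = I` is at least
`(1 - ε) (t - s) ∏ a / n_k`, and the measure of those for which it contains `I` is at most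
`(1 + ε) (t - s) ∏ A / n_k`, with the products over `k ∈ I`; (2) for every `r` the measure of the `x` in
`(s, t)` with exactly `r` further primes is at least `(1 - ε) (t - s) ∏ a / n_k`, and the measure of
those with at least `r` further primes is at most `(1 + ε) (t - s) ∏ A / n_k`, with the products over
`N < k ≤ N + r`. -/
theorem result :
    (∀ m : ℕ, 1 ≤ m → ∃ d b : ℕ, (d : ℝ) + b * √8 = (3 + √8) ^ m ∧
      ⌊2 * β ^ m⌋₊ + 6 = 8 * d ^ 2 + 1 ∧ 8 * d ^ 2 + 1 = 64 * b ^ 2 + 9) ∧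
    ∃ (a A : ℝ) (C : ℕ), 0 < a ∧ a ≤ A ∧
      ∀ (ε : ℝ) (B : ℕ) (s t : ℝ), 0 < ε → ε < 1 → 0 < s → s < t → ∃ K : ℕ,
        ∀ n : ℕ → ℕ, (∀ k, C * n k ≤ n (k + 1)) → ∀ N, K ≤ n N →
          ∀ c : ℕ → ℕ, (∀ k, c k ≤ B) →
          (∀ I : Finset ℕ, (∀ k ∈ I, N < k) →
            (1 - ε) * (t - s) * ∏ k ∈ I, a / n k ≤
              volume.real {x | x ∈ Set.Ioo s t ∧ further n c N x = I} ∧
            volume.real {x | x ∈ Set.Ioo s t ∧ (I : Set ℕ) ⊆ further n c N x} ≤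
              (1 + ε) * (t - s) * ∏ k ∈ I, A / n k) ∧
          ∀ r : ℕ,
            (1 - ε) * (t - s) * ∏ k ∈ Ioc N (N + r), a / n k ≤
              volume.real {x | x ∈ Set.Ioo s t ∧ (further n c N x).encard = r} ∧
            volume.real {x | x ∈ Set.Ioo s t ∧ r ≤ (further n c N x).encard} ≤
              (1 + ε) * (t - s) * ∏ k ∈ Ioc N (N + r), A / n k := by
  refine ⟨numbers, ?_⟩
  have hβ : 1 < β := by
    unfold β
    have : 0 ≤ √8 := Real.sqrt_nonneg _
    nlinarith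
  exact Pool.Agent.Q288.VL.laws_real hβ

end Pool.Agent.Results.MP_f53aaa_nt.AmplitudeLaws
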