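import Mathlib
import Pool.Agent.Q267.DV.Fin

/-!
# The numbers `8 d ^ 2 + 1`, `d ^ 2 - 8 b ^ 2 = 1`, in a real family: infinitely many primes

The positive solutions of `d ^ 2 - 8 b ^ 2 = 1` are `d = T_m(3)`, `m ≥ 1`, with the Chebyshev polynomials
`T_m`, so that the admissible primes are the primes among the numbers `8 T_m(3) ^ 2 + 1`.  Replace `3` by a
real number `x > 1`.  For every set `S` of indices with divergent sum of `1 / m` (for example all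
indices, or the prime indices) and almost every `x > 1` the integer part of `8 T_m(x) ^ 2 + 1` is prime for
infinitely many `m ∈ S`.  If the sum converges, then for almost every `x > 1` it is prime for only
finitely many `m ∈ S`.
-/

set_option autoImplicit false

namespace Pool.Agent.Results.MP_f53aaa_nt.EveryDivergentIndexSet

open MeasureTheory

/-- The Chebyshev polynomials at a real point. -/
def T (x : ℝ) : ℕ → ℝ
  | 0 => 1
  | 1 => x
  | n + 2 => 2 * x * T x (n + 1) - T x n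

/-- A prime is admissible if it is `64 b ^ 2 + 9` and `8 d ^ 2 + 1` for integers `b`, `d`. -/
def Admissible (p : ℕ) : Prop := p.Prime ∧ ∃ b d : ℤ, (p : ℤ) = 64 * b ^ 2 + 9 ∧ (p : ℤ) = 8 * d ^ 2 + 1

lemma T_eq (x : ℝ) (n : ℕ) : T x n = Pool.Agent.Q43.LC.TT x n := by
  induction n using Nat.twoStepInduction with
  | zero => rfl
  | one => rfl
  | more n h1 h2 =>
    show 2 * x * T x (n + 1) - T x n = _
    rw [h1, h2]
    rfl

/-- the integer solutions -/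
lemma sol (n : ℕ) : ∃ d b d' b' : ℤ, T 3 n = d ∧ T 3 (n + 1) = d' ∧ d ^ 2 - 8 * b ^ 2 = 1 ∧
    d' = 3 * d + 8 * b ∧ b' = d + 3 * b ∧ d' ^ 2 - 8 * b' ^ 2 = 1 := by
  induction n with
  | zero => exact ⟨1, 0, 3, 1, by simp [T], by simp [T], by norm_num, by norm_num, by norm_num, by norm_num⟩
  | succ n ih =>
    obtain ⟨d, b, d', b', h1, h2, h3, h4, h5, h6⟩ := ih
    refine ⟨d', b', 3 * d' + 8 * b', d' + 3 * b', h2, ?_, h6, rfl, rfl, by nlinarith⟩
    show 2 * 3 * T 3 (n + 1) - T 3 n = _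
    rw [h1, h2, h4, h5]
    push_cast
    ring

/-- The dichotomy: infinitely many prime values for almost every `x` if and only if the sum of `1 / m` over
the index set diverges. -/
theorem result :
    (∀ m : ℕ, ((⌊8 * T 3 m ^ 2 + 1⌋₊ : ℕ) : ℝ) = 8 * T 3 m ^ 2 + 1 ∧
      ((⌊8 * T 3 m ^ 2 + 1⌋₊).Prime → Admissible ⌊8 * T 3 m ^ 2 + 1⌋₊)) ∧
    (∀ S : Set ℕ, (¬ Summable fun m : S => 1 / ((m : ℕ) : ℝ)) →
      ∀ᵐ x : ℝ, 1 < x → {m : ℕ | m ∈ S ∧ (⌊8 * T x m ^ 2 + 1⌋₊).Prime}.Infinite) ∧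
    (∀ S : Set ℕ, (Summable fun m : S => 1 / ((m : ℕ) : ℝ)) →
      ∀ᵐ x : ℝ, 1 < x → {m : ℕ | m ∈ S ∧ (⌊8 * T x m ^ 2 + 1⌋₊).Prime}.Finite) := by
  refine ⟨fun m => ?_, fun S hS => ?_, fun S hS => ?_⟩
  · obtain ⟨d, b, _, _, h1, _, h3, _, _, _⟩ := sol m
    have hfl : ⌊8 * T 3 m ^ 2 + 1⌋₊ = (8 * d ^ 2 + 1).toNat := by
      rw [h1]
      have e : (8 * (d : ℝ) ^ 2 + 1) = (((8 * d ^ 2 + 1).toNat : ℕ) : ℝ) := by
        have h4 : (0 : ℤ) ≤ 8 * d ^ 2 + 1 := by positivity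
        have h5 : (((8 * d ^ 2 + 1).toNat : ℤ) : ℝ) = ((8 * d ^ 2 + 1 : ℤ) : ℝ) := by
          rw [Int.toNat_of_nonneg h4]
        rw [← Int.cast_natCast, h5]
        push_cast
        ring
      rw [e, Nat.floor_natCast]
    have h4 : (((8 * d ^ 2 + 1).toNat : ℕ) : ℤ) = 8 * d ^ 2 + 1 := Int.toNat_of_nonneg (by positivity)
    refine ⟨?_, fun hp => ⟨hp, b, d, ?_, ?_⟩⟩
    · rw [hfl, h1, ← Int.cast_natCast, h4]
      push_cast
      ring
    · rw [hfl, h4]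
      linarith
    · rw [hfl, h4]
  · simp only [T_eq]
    have h := Pool.Agent.Q43.LC.ae_cosh
      (Q := fun x => ∀ M : ℕ, ∃ m ∈ S, M ≤ m ∧ (⌊8 * Pool.Agent.Q43.LC.TT x m ^ 2 + 1⌋₊).Prime)
      (Pool.Agent.Q267.DV.c_inf hS)
    filter_upwards [h] with x hx h1
    refine Set.infinite_of_forall_exists_gt fun M => ?_
    obtain ⟨m, h2, h3, h4⟩ := hx h1 (M + 1)
    exact ⟨m, ⟨h2, h4⟩, by omega⟩
  · simp only [T_eq]
    have h := Pool.Agent.Q43.LC.ae_cosh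
      (Q := fun x => ∃ M : ℕ, ∀ m ∈ S, M ≤ m → ¬ (⌊8 * Pool.Agent.Q43.LC.TT x m ^ 2 + 1⌋₊).Prime)
      (Pool.Agent.Q43.LC.c_ae hS)
    filter_upwards [h] with x hx h1
    obtain ⟨M, hM⟩ := hx h1
    refine (Set.finite_lt_nat M).subset ?_
    rintro m ⟨h2, h3⟩
    by_contra hcon
    exact hM m h2 (not_lt.1 hcon) h3

end Pool.Agent.Results.MP_f53aaa_nt.EveryDivergentIndexSet
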