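import Mathlib
import Pool.Agent.Q43.LC.Cheb

/-!
# The numbers `8 d ^ 2 + 1`, `d ^ 2 - 8 b ^ 2 = 1`, in a real family: lacunary sets of prime indices

The positive solutions of `d ^ 2 - 8 b ^ 2 = 1` are `d = T_m(3)`, `m ≥ 1`, with the Chebyshev polynomials
`T_m`, so that the admissible primes are the primes among the numbers `8 T_m(3) ^ 2 + 1`.  Replace `3` by a
real number `x > 1`.  There is an absolute constant `C` such that for every set `S` of indices that is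
lacunary with ratio `C` the set of the `x` in any given interval (for example around `3`) for which
the integer part of `8 T_m(x) ^ 2 + 1` is prime for all large `m ∈ S` has Hausdorff dimension `1`.  For
almost every `x` only finitely many of these integers are prime, if the sum of `1 / m` over `S` is finite.
-/

set_option autoImplicit false

namespace Pool.Agent.Results.MP_f53aaa_nt.LacunaryIndices

open MeasureTheory

/-- The Chebyshev polynomials at a real point. -/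
def T (x : ℝ) : ℕ → ℝ
  | 0 => 1
  | 1 => x
  | n + 2 => 2 * x * T x (n + 1) - T x n

/-- Any two elements `m < n` of the set satisfy `C m ≤ n`. -/
def Lacunary (C : ℕ) (S : Set ℕ) : Prop := ∀ m ∈ S, ∀ n ∈ S, m < n → C * m ≤ n

/-- A prime is admissible if it is `64 b ^ 2 + 9` and `8 d ^ 2 + 1` for integers `b`, `d`. -/
def Admissible (p : ℕ) : Prop := p.Prime ∧ ∃ b d : ℤ, (p : ℤ) = 64 * b ^ 2 + 9 ∧ (p : ℤ) = 8 * d ^ 2 + 1

lemma T_eq (x : ℝ) (n : ℕ) : T x n = Pool.Agent.Q43.LC.TT x n := by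
  induction n using Nat.twoStepInduction with
  | zero => rfl
  | one => rfl
  | more n h1 h2 =>
    show 2 * x * T x (n + 1) - T x n = _
    rw [h1, h2]
    rfl

/-- the integer solutions -/
lemma sol (n : ℕ) : ∃ d b d' b' : ℤ, T 3 n = d ∧ T 3 (n + 1) = d' ∧ d ^ 2 - 8 * b ^ 2 = 1 ∧
    d' = 3 * d + 8 * b ∧ b' = d + 3 * b ∧ d' ^ 2 - 8 * b' ^ 2 = 1 := by
  induction n with
  | zero => exact ⟨1, 0, 3, 1, by simp [T], by simp [T], by norm_num, by norm_num, by norm_num, by norm_num⟩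
  | succ n ih =>
    obtain ⟨d, b, d', b', h1, h2, h3, h4, h5, h6⟩ := ih
    refine ⟨d', b', 3 * d' + 8 * b', d' + 3 * b', h2, ?_, h6, rfl, rfl, by nlinarith⟩
    show 2 * 3 * T 3 (n + 1) - T 3 n = _
    rw [h1, h2, h4, h5]
    push_cast
    ring

/-- Prescribed lacunary sets of prime indices: dimension `1`; and almost every `x`. -/
theorem result :
    (∀ m : ℕ, ((⌊8 * T 3 m ^ 2 + 1⌋₊ : ℕ) : ℝ) = 8 * T 3 m ^ 2 + 1 ∧
      ((⌊8 * T 3 m ^ 2 + 1⌋₊).Prime → Admissible ⌊8 * T 3 m ^ 2 + 1⌋₊)) ∧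
    (∃ C : ℕ, 2 ≤ C ∧ ∀ S : Set ℕ, Lacunary C S → ∀ a b : ℝ, 1 ≤ a → a < b →
      dimH {x : ℝ | a < x ∧ x < b ∧ ∃ M : ℕ, ∀ m ∈ S, M ≤ m → (⌊8 * T x m ^ 2 + 1⌋₊).Prime} = 1) ∧
    (∀ S : Set ℕ, (Summable fun m : S => 1 / ((m : ℕ) : ℝ)) →
      ∀ᵐ x : ℝ, 1 < x → ∃ M : ℕ, ∀ m ∈ S, M ≤ m → ¬ (⌊8 * T x m ^ 2 + 1⌋₊).Prime) := by
  refine ⟨fun m => ?_, ?_, fun S hS => ?_⟩
  · obtain ⟨d, b, _, _, h1, _, h3, _, _, _⟩ := sol m
    have hfl : ⌊8 * T 3 m ^ 2 + 1⌋₊ = (8 * d ^ 2 + 1).toNat := by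
      rw [h1]
      have e : (8 * (d : ℝ) ^ 2 + 1) = (((8 * d ^ 2 + 1).toNat : ℕ) : ℝ) := by
        have h4 : (0 : ℤ) ≤ 8 * d ^ 2 + 1 := by positivity
        have h5 : (((8 * d ^ 2 + 1).toNat : ℤ) : ℝ) = ((8 * d ^ 2 + 1 : ℤ) : ℝ) := by
          rw [Int.toNat_of_nonneg h4]
        rw [← Int.cast_natCast, h5]
        push_cast
        ring
      rw [e, Nat.floor_natCast]
    have h4 : (((8 * d ^ 2 + 1).toNat : ℕ) : ℤ) = 8 * d ^ 2 + 1 := Int.toNat_of_nonneg (by positivity)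
    refine ⟨?_, fun hp => ⟨hp, b, d, ?_, ?_⟩⟩
    · rw [hfl, h1, ← Int.cast_natCast, h4]
      push_cast
      ring
    · rw [hfl, h4]
      linarith
    · rw [hfl, h4]
  · obtain ⟨C, hC2, hC⟩ := Pool.Agent.Q43.LC.c_dim
    refine ⟨C, hC2, fun S hS a b ha hab => ?_⟩
    simp only [T_eq]
    exact Pool.Agent.Q43.LC.dim_cosh ha hab fun b0 b1 h0 h1 => hC S hS b0 b1 h0 h1
  · simp only [T_eq]
    exact Pool.Agent.Q43.LC.ae_cosh
      (Q := fun x => ∃ M : ℕ, ∀ m ∈ S, M ≤ m → ¬ (⌊8 * Pool.Agent.Q43.LC.TT x m ^ 2 + 1⌋₊).Prime)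
      (Pool.Agent.Q43.LC.c_ae hS)

end Pool.Agent.Results.MP_f53aaa_nt.LacunaryIndices
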