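import Mathlib
import Pool.Agent.Q288.VC.Cheb

/-!
# The numbers `8 d ^ 2 + 1`, `d ^ 2 - 8 b ^ 2 = 1`, in a real family: prescribed prime indices

The positive solutions of `d ^ 2 - 8 b ^ 2 = 1` are `d = T_m(3)`, `m ≥ 1`, with the Chebyshev
polynomials `T_m`, so that the admissible primes are the primes among the numbers
`8 T_m(3) ^ 2 + 1`. Replace `3` by a real number `x > 1`. For a lacunary set `S` of indices every
subset of `S` is, up to finitely many elements, the set of the `m ∈ S` for which the integer part of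
`8 T_m(x) ^ 2 + 1` is prime, for a set of `x` of dimension `1` in every interval.
-/

set_option autoImplicit false

namespace Pool.Agent.Results.MP_f53aaa_nt.PrescribedIndices

open Filter

/-- The Chebyshev polynomials at a real point. -/
def T (x : ℝ) : ℕ → ℝ
  | 0 => 1
  | 1 => x
  | n + 2 => 2 * x * T x (n + 1) - T x n

/-- Any two elements `m < n` of the set satisfy `C m ≤ n`. -/
def Lacunary (C : ℕ) (S : Set ℕ) : Prop := ∀ m ∈ S, ∀ n ∈ S, m < n → C * m ≤ n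

lemma T_eq (x : ℝ) (n : ℕ) : T x n = Pool.Agent.Q43.LC.TT x n := by
  induction n using Nat.twoStepInduction with
  | zero => rfl
  | one => rfl
  | more n h1 h2 =>
    show 2 * x * T x (n + 1) - T x n = _
    rw [h1, h2]
    rfl

lemma T_cont (n : ℕ) : Continuous fun x => T x n := by
  induction n using Nat.twoStepInduction with
  | zero => exact continuous_const
  | one => exact continuous_id
  | more n h1 h2 => exact ((continuous_const.mul continuous_id).mul h2).sub h1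

lemma T_cosh (u : ℝ) (n : ℕ) : T (Real.cosh u) n = Real.cosh (n * u) := by
  rw [T_eq, Pool.Agent.Q43.LC.TT_cosh]

lemma T_inj {m : ℕ} (hm : 1 ≤ m) {x y : ℝ} (hx : 1 < x) (hy : 1 < y)
    (h : 8 * T x m ^ 2 + 1 = 8 * T y m ^ 2 + 1) : x = y := by
  have e : ∀ z : ℝ, 1 < z → z = Real.cosh (Real.arcosh z) := fun z hz =>
    (Real.cosh_arcosh hz.le).symm
  have hm0 : (0 : ℝ) < m := by exact_mod_cast hm
  rw [e x hx, e y hy, T_cosh, T_cosh] at h
  have p1 := Real.cosh_pos (m * Real.arcosh x)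
  have p2 := Real.cosh_pos (m * Real.arcosh y)
  have h1 : Real.cosh (m * Real.arcosh x) = Real.cosh (m * Real.arcosh y) := by nlinarith
  have q1 : 0 ≤ m * Real.arcosh x := mul_nonneg hm0.le (Real.arcosh_pos hx).le
  have q2 : 0 ≤ m * Real.arcosh y := mul_nonneg hm0.le (Real.arcosh_pos hy).le
  have h2 := Real.cosh_strictMonoOn.injOn q1 q2 h1
  have h3 := mul_left_cancel₀ hm0.ne' h2
  rw [e x hx, e y hy, h3]

lemma nine_le {x : ℝ} (hx : 1 < x) (m : ℕ) : 9 ≤ 8 * T x m ^ 2 + 1 := by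
  rw [← Real.cosh_arcosh hx.le, T_cosh]
  have := Real.one_le_cosh (m * Real.arcosh x)
  nlinarith

/-- There is an absolute constant `C` such that for every set `S` of indices with ratios at least
`C`: (1) for every set `U` and `1 ≤ a < b` the set of the `x` in `(a, b)` for which, for all large
`m ∈ S`, `⌊8 T_m(x) ^ 2 + 1⌋` is prime if and only if `m ∈ U`, has Hausdorff dimension one; (2) for
every bounded sequence `c` of natural numbers the set of the `x` in `(a, b)` for which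
`⌊8 T_m(x) ^ 2 + 1⌋ + c m` is prime for all large `m ∈ S` has Hausdorff dimension one; (3) for every
`U` and every function `g`, for all `x > 1` outside a meagre set there are infinitely many `k` such
that, for all `m ∈ S` from `k` to `g k`, `⌊8 T_m(x) ^ 2 + 1⌋` is prime if and only if `m ∈ U`. -/
theorem result : ∃ C : ℕ, 2 ≤ C ∧ ∀ S : Set ℕ, Lacunary C S →
    (∀ U : Set ℕ, ∀ a b : ℝ, 1 ≤ a → a < b →
      dimH {x : ℝ | a < x ∧ x < b ∧ ∃ M : ℕ, ∀ m ∈ S, M ≤ m →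
        ((⌊8 * T x m ^ 2 + 1⌋₊).Prime ↔ m ∈ U)} = 1) ∧
    (∀ c : ℕ → ℕ, (∃ B, ∀ m, c m ≤ B) → ∀ a b : ℝ, 1 ≤ a → a < b →
      dimH {x : ℝ | a < x ∧ x < b ∧ ∃ M : ℕ, ∀ m ∈ S, M ≤ m →
        (⌊8 * T x m ^ 2 + 1⌋₊ + c m).Prime} = 1) ∧
    (∀ U : Set ℕ, ∀ g : ℕ → ℕ, ∀ᶠ x : ℝ in residual ℝ, 1 < x → ∀ K : ℕ, ∃ k, K ≤ k ∧
      ∀ m ∈ S, k ≤ m → m ≤ g k → ((⌊8 * T x m ^ 2 + 1⌋₊).Prime ↔ m ∈ U)) := by
  obtain ⟨C, hC2, hC⟩ := Pool.Agent.Q288.VC.cz_dim
  refine ⟨C, hC2, fun S hS => ?_⟩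
  have two : ∀ c : ℕ → ℕ, (∃ B, ∀ m, c m ≤ B) → ∀ a b : ℝ, 1 ≤ a → a < b →
      dimH {x : ℝ | a < x ∧ x < b ∧ ∃ M : ℕ, ∀ m ∈ S, M ≤ m →
        (⌊8 * T x m ^ 2 + 1⌋₊ + c m).Prime} = 1 := by
    rintro c ⟨B, hB⟩ a b ha hab
    refine Pool.Agent.Q43.LC.dim_cosh ha hab fun b0 b1 h0 h1 => ?_
    refine (hC c B hB S hS b0 b1 h0 h1).trans (dimH_mono ?_)
    rintro t ⟨t0, t1, M, hM⟩
    refine ⟨t0, t1, M, fun m hm hge => ?_⟩
    have h2 := hM m hm hge
    rwa [Nat.floor_add_natCast (by positivity), ← T_eq] at h2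
  have one : ∀ U : Set ℕ, ∀ a b : ℝ, 1 ≤ a → a < b →
      dimH {x : ℝ | a < x ∧ x < b ∧ ∃ M : ℕ, ∀ m ∈ S, M ≤ m →
        ((⌊8 * T x m ^ 2 + 1⌋₊).Prime ↔ m ∈ U)} = 1 := by
    classical
    intro U a b ha hab
    refine le_antisymm (Pool.Agent.Q43.LC.dimH_le_one _) ?_
    rw [← two (fun m => if m ∈ U then 0 else 1) ⟨1, fun m => by split_ifs <;> omega⟩ a b ha hab]
    refine dimH_mono ?_
    rintro x ⟨h1, h2, M, hM⟩
    refine ⟨h1, h2, M, fun m hm hge => ?_⟩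
    have h3 := hM m hm hge
    by_cases hU : m ∈ U
    · rw [if_pos hU, add_zero] at h3
      exact ⟨fun _ => hU, fun _ => h3⟩
    · rw [if_neg hU] at h3
      refine ⟨fun hp => ?_, fun h => absurd h hU⟩
      exfalso
      have h9 : 9 ≤ ⌊8 * T x m ^ 2 + 1⌋₊ :=
        Nat.le_floor (by exact_mod_cast nine_le (lt_of_le_of_lt ha h1) m)
      have o1 := hp.odd_of_ne_two (by omega)
      have o2 := h3.odd_of_ne_two (by omega)
      exact (Nat.not_even_iff_odd.mpr o2) o1.add_one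
  refine ⟨one, two, fun U g => ?_⟩
  refine Pool.Agent.Q288.VC.soft (J := Set.Ioi 1) (v := fun m x => 8 * T x m ^ 2 + 1) (K₀ := 1)
    (S := S) (W := fun m => {n | n.Prime ↔ m ∈ U}) isOpen_Ioi (fun m => ?_)
    (fun m x _ => by positivity) (fun m hm => ?_) (fun a b hab hsub hcount => ?_) g
  · exact (((continuous_const.mul ((T_cont m).pow 2))).add continuous_const).continuousOn
  · have : {x ∈ Set.Ioi (1 : ℝ) | ∃ n : ℕ, 8 * T x m ^ 2 + 1 = n} ⊆
        ⋃ n : ℕ, {x ∈ Set.Ioi (1 : ℝ) | 8 * T x m ^ 2 + 1 = n} := by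
      rintro x ⟨h1, n, h2⟩
      exact Set.mem_iUnion.mpr ⟨n, h1, h2⟩
    refine (Set.countable_iUnion fun n => Set.Subsingleton.countable ?_).mono this
    rintro x ⟨hx1, hx2⟩ y ⟨hy1, hy2⟩
    exact T_inj hm hx1 hy1 (hx2.trans hy2.symm)
  · have ha : 1 ≤ a := by
      by_contra hcon
      push Not at hcon
      obtain ⟨z, hz1, hz2⟩ := exists_between (lt_min hab hcon)
      have := hsub ⟨hz1, hz2.trans_le (min_le_left _ _)⟩
      exact absurd (hz2.trans_le (min_le_right _ _)) (not_lt.mpr (le_of_lt this))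
    have h1 := one U a b ha hab
    have h2 := hcount.dimH_zero
    rw [show {x | a < x ∧ x < b ∧ ∃ M : ℕ, ∀ m ∈ S, M ≤ m →
      ⌊8 * T x m ^ 2 + 1⌋₊ ∈ {n : ℕ | n.Prime ↔ m ∈ U}} = {x : ℝ | a < x ∧ x < b ∧ ∃ M : ℕ,
        ∀ m ∈ S, M ≤ m → ((⌊8 * T x m ^ 2 + 1⌋₊).Prime ↔ m ∈ U)} from rfl, h1] at h2
    exact one_ne_zero h2

end Pool.Agent.Results.MP_f53aaa_nt.PrescribedIndices
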